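import Pool.Agent.Y395.SP.Stm

set_option autoImplicit false

/-!
# Round robin requests on a separator tree

A lower bound for the constant of dynamic optimality of splaying. The requested keys are the leaves of
a binary tree in symmetric order, the inner nodes are separating keys which are never requested; the
requests visit at every inner node the two subtrees alternately. Splaying costs exactly one plus twice
the number of inner nodes above the leaf, at every request.
-/

namespace Pool.Agent.H801.Sp

open Pool.Agent.H581R2.Splay Pool.Agent.TH49.Spl Tr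
open Pool.Agent.Y395.SP (opt)

/-- A separator tree: every inner node remembers which subtree was visited last
(`false`: the left one, `true`: the right one). -/
inductive St : Type
  | leaf (x : ℕ) : St
  | br (p : Bool) (z : ℕ) (l r : St) : St

namespace St

/-- the root, the left and the right subtree of the splay tree in this state -/
def parts : St → ℕ × Tr × Tr
  | leaf x => (x, nil, nil)
  | br false z l r => (l.parts.1, l.parts.2.1,
      node z l.parts.2.2 (node r.parts.1 r.parts.2.1 r.parts.2.2))
  | br true z l r => (r.parts.1,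
      node z (node l.parts.1 l.parts.2.1 l.parts.2.2) r.parts.2.1, r.parts.2.2)

/-- the splay tree in this state -/
def tree (s : St) : Tr := node s.parts.1 s.parts.2.1 s.parts.2.2

/-- the key requested last -/
def root (s : St) : ℕ := s.parts.1

/-- the next state -/
def nxt : St → St
  | leaf x => leaf x
  | br false z l r => br true z l r.nxt
  | br true z l r => br false z l.nxt r

/-- the number of inner nodes above the next leaf -/
def lev : St → ℕ
  | leaf _ => 0
  | br false _ _ r => r.lev + 1
  | br true _ l _ => l.lev + 1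

/-- the keys -/
def ks : St → List ℕ
  | leaf x => [x]
  | br _ z l r => l.ks ++ z :: r.ks

theorem keys_tree (s : St) : keys s.tree = s.ks := by
  induction s with
  | leaf x => rfl
  | br p z l r ihl ihr =>
    simp only [tree, keys] at ihl ihr
    cases p
    · simp only [tree, parts, keys, ks, ← ihl, ← ihr]
      simp
    · simp only [tree, parts, keys, ks, ← ihl, ← ihr]
      simp

theorem ks_nxt (s : St) : s.nxt.ks = s.ks := by
  induction s with
  | leaf x => rfl
  | br p z l r ihl ihr =>
    cases p
    · simp only [nxt, ks, ihr]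
    · simp only [nxt, ks, ihl]

theorem root_mem (s : St) : s.root ∈ s.ks := by
  rw [← keys_tree]
  simp [tree, keys, root]

theorem step (s : St) : s.ks.Pairwise (· < ·) → ∃ (fs : List Fr) (l r : Tr),
    (∀ gs, locate s.nxt.root s.tree gs = (fs ++ gs, l, r)) ∧
    dep s.nxt.root s.tree = 2 * s.lev ∧
    (∀ gs, climb s.nxt.root (fs ++ gs) l r = climb s.nxt.root gs s.nxt.parts.2.1 s.nxt.parts.2.2) := by
  induction s with
  | leaf x =>
    intro _
    refine ⟨[], nil, nil, ?_, ?_, ?_⟩
    · intro gs
      simp [nxt, root, parts, tree, locate]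
    · simp [nxt, root, parts, tree, lev, dep]
    · intro gs
      simp [nxt, root, parts]
  | br p z l r ihl ihr =>
    intro hs
    have hs' := hs
    simp only [ks, List.pairwise_append, List.pairwise_cons] at hs'
    obtain ⟨hl, ⟨hz, hr⟩, hlr⟩ := hs'
    cases p
    · obtain ⟨fs, L, R, h1, h2, h3⟩ := ihr hr
      have hy : r.nxt.root ∈ r.ks := by rw [← ks_nxt r]; exact root_mem _
      have hx : l.root ∈ l.ks := root_mem _
      have a1 : z < r.nxt.root := hz _ hy
      have a2 : l.parts.1 < r.nxt.root := hlr _ hx _ (List.mem_cons_of_mem _ hy)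
      have e : (br false z l r).nxt.root = r.nxt.root := by simp [nxt, root, parts]
      have et : (br false z l r).tree = node l.parts.1 l.parts.2.1 (node z l.parts.2.2 r.tree) := by
        simp [tree, parts]
      rw [e, et]
      refine ⟨fs ++ [Fr.inR z l.parts.2.2, Fr.inR l.parts.1 l.parts.2.1], L, R, ?_, ?_, ?_⟩
      · intro gs
        have b1 : ¬ r.nxt.root = l.parts.1 := by omega
        have b2 : ¬ r.nxt.root < l.parts.1 := by omega
        have b3 : ¬ r.nxt.root = z := by omega
        have b4 : ¬ r.nxt.root < z := by omega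
        simp only [locate, if_neg b1, if_neg b2, if_neg b3, if_neg b4]
        rw [h1]
        simp
      · have b1 : ¬ r.nxt.root = l.parts.1 := by omega
        have b2 : ¬ r.nxt.root < l.parts.1 := by omega
        have b3 : ¬ r.nxt.root = z := by omega
        have b4 : ¬ r.nxt.root < z := by omega
        simp only [dep, if_neg b1, if_neg b2, if_neg b3, if_neg b4, h2, lev]
        ring
      · intro gs
        rw [List.append_assoc, h3]
        simp [climb, nxt, parts]
    · obtain ⟨fs, L, R, h1, h2, h3⟩ := ihl hl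
      have hx : l.nxt.root ∈ l.ks := by rw [← ks_nxt l]; exact root_mem _
      have hy : r.root ∈ r.ks := root_mem _
      have a1 : l.nxt.root < z := hlr _ hx _ (by simp)
      have a2 : l.nxt.root < r.parts.1 := hlr _ hx _ (List.mem_cons_of_mem _ hy)
      have e : (br true z l r).nxt.root = l.nxt.root := by simp [nxt, root, parts]
      have et : (br true z l r).tree = node r.parts.1 (node z l.tree r.parts.2.1) r.parts.2.2 := by
        simp [tree, parts]
      rw [e, et]
      refine ⟨fs ++ [Fr.inL z r.parts.2.1, Fr.inL r.parts.1 r.parts.2.2], L, R, ?_, ?_, ?_⟩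
      · intro gs
        have b1 : ¬ l.nxt.root = r.parts.1 := by omega
        have b3 : ¬ l.nxt.root = z := by omega
        simp only [locate, if_neg b1, if_pos a2, if_neg b3, if_pos a1]
        rw [h1]
        simp
      · have b1 : ¬ l.nxt.root = r.parts.1 := by omega
        have b3 : ¬ l.nxt.root = z := by omega
        simp only [dep, if_neg b1, if_pos a2, if_neg b3, if_pos a1, h2, lev]
        ring
      · intro gs
        rw [List.append_assoc, h3]
        simp [climb, nxt, parts]

theorem splay_tree (s : St) (h : s.ks.Pairwise (· < ·)) :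
    splay s.nxt.root s.tree = s.nxt.tree ∧ dep s.nxt.root s.tree = 2 * s.lev := by
  obtain ⟨fs, l, r, h1, h2, h3⟩ := step s h
  refine ⟨?_, h2⟩
  have a := h1 []
  have b := h3 []
  rw [List.append_nil] at a b
  unfold splay
  rw [a]
  simp only
  rw [b]
  simp [climb, tree, root]

/-- the first `N` requests -/
def req : St → ℕ → List ℕ
  | _, 0 => []
  | s, N + 1 => s.nxt.root :: req s.nxt N

/-- the sum of the levels of the first `N` requests -/
def lsum : St → ℕ → ℕ
  | _, 0 => 0
  | s, N + 1 => s.lev + lsum s.nxt N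

theorem cost_req (N : ℕ) : ∀ s : St, s.ks.Pairwise (· < ·) →
    costSplay s.tree (s.req N) = N + 2 * s.lsum N := by
  induction N with
  | zero => intro s _; rfl
  | succ N ih =>
    intro s hs
    obtain ⟨h1, h2⟩ := splay_tree s hs
    simp only [req, costSplay, lsum, h1, h2]
    rw [ih s.nxt (by rw [ks_nxt]; exact hs)]
    ring

theorem mem_req (N : ℕ) : ∀ (s : St), ∀ x ∈ s.req N, x ∈ s.ks := by
  induction N with
  | zero => intro s x hx; simp [req] at hx
  | succ N ih =>
    intro s x hx
    simp only [req, List.mem_cons] at hx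
    rcases hx with h | h
    · rw [h, ← ks_nxt s]; exact root_mem _
    · rw [← ks_nxt s]; exact ih _ x h

theorem length_req (N : ℕ) : ∀ (s : St), (s.req N).length = N := by
  induction N with
  | zero => intro s; rfl
  | succ N ih => intro s; simp [req, ih]

theorem lsum_br (z N : ℕ) : ∀ (p : Bool) (l r : St),
    (br p z l r).lsum (2 * N) = 2 * N + l.lsum N + r.lsum N := by
  induction N with
  | zero => intro p l r; simp [lsum]
  | succ N ih =>
    intro p l r
    cases p
    · have := ih false l.nxt r.nxt
      rw [show 2 * (N + 1) = 2 * N + 1 + 1 by ring]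
      simp only [lsum, nxt, lev, this]
      ring
    · have := ih true l.nxt r.nxt
      rw [show 2 * (N + 1) = 2 * N + 1 + 1 by ring]
      simp only [lsum, nxt, lev, this]
      ring

theorem sum_br (w : ℕ → ℕ) (z N : ℕ) : ∀ (p : Bool) (l r : St),
    (((br p z l r).req (2 * N)).map w).sum = ((l.req N).map w).sum + ((r.req N).map w).sum := by
  induction N with
  | zero => intro p l r; simp [req]
  | succ N ih =>
    intro p l r
    cases p
    · have := ih false l.nxt r.nxt
      rw [show 2 * (N + 1) = 2 * N + 1 + 1 by ring]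
      simp only [req, nxt, List.map_cons, List.sum_cons, this]
      simp only [root, parts]
      ring
    · have := ih true l.nxt r.nxt
      rw [show 2 * (N + 1) = 2 * N + 1 + 1 by ring]
      simp only [req, nxt, List.map_cons, List.sum_cons, this]
      simp only [root, parts]
      ring

theorem lsum_leaf (x N : ℕ) : (leaf x).lsum N = 0 := by
  induction N with
  | zero => rfl
  | succ N ih => simp only [lsum, nxt, lev, ih]

theorem sum_leaf (w : ℕ → ℕ) (x N : ℕ) : (((leaf x).req N).map w).sum = N * w x := by
  induction N with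
  | zero => simp [req]
  | succ N ih =>
    simp only [req, nxt, List.map_cons, List.sum_cons, ih]
    simp only [root, parts]
    ring

end St

open St

/-- the number of keys -/
def nk : ℕ → ℕ
  | 0 => 1
  | m + 1 => 2 * nk m + 3

/-- the separator trees: half of the requests go to the left part, a quarter to one key, a quarter to
the right part -/
def fam : ℕ → ℕ → St
  | 0, a => leaf a
  | m + 1, a => br false (a + nk m) (fam m a)
      (br false (a + nk m + 2) (leaf (a + nk m + 1)) (fam m (a + nk m + 3)))

theorem ks_fam (m : ℕ) : ∀ a, (fam m a).ks = List.range' a (nk m) := by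
  induction m with
  | zero => intro a; simp [fam, ks, nk]
  | succ m ih =>
    intro a
    simp only [fam, ks, ih, nk]
    rw [show 2 * nk m + 3 = nk m + (nk m + 3) by ring, ← List.range'_append_1,
      show nk m + 3 = (nk m + 2) + 1 by ring, List.range'_succ, List.range'_succ, List.range'_succ]
    simp only [List.singleton_append]

/-- a new last key -/
def insR (z : ℕ) : Tr → Tr
  | nil => node z nil nil
  | node a l r => node a l (insR z r)

/-- a new first key -/
def insL (z : ℕ) : Tr → Tr
  | nil => node z nil nil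
  | node a l r => node a (insL z l) r

theorem keys_insR (z : ℕ) (t : Tr) : keys (insR z t) = keys t ++ [z] := by
  induction t with
  | nil => simp [insR, keys]
  | node a l r _ ih => simp [insR, keys, ih]

theorem keys_insL (z : ℕ) (t : Tr) : keys (insL z t) = z :: keys t := by
  induction t with
  | nil => simp [insL, keys]
  | node a l r ih _ => simp [insL, keys, ih]

theorem dep_insR (z x : ℕ) (t : Tr) : IsBST t → x ∈ keys t → dep x (insR z t) = dep x t := by
  induction t with
  | nil => intro _ h; simp [keys] at h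
  | node a l r _ ih =>
    intro hb hx
    unfold IsBST at hb ih
    simp only [keys, List.pairwise_append, List.pairwise_cons] at hb
    obtain ⟨h1, ⟨h2, h3⟩, h4⟩ := hb
    simp only [insR, dep]
    by_cases c1 : x = a
    · simp [c1]
    · by_cases c2 : x < a
      · simp [c1, c2]
      · simp only [if_neg c1, if_neg c2]
        rw [ih h3]
        simp only [keys, List.mem_append, List.mem_cons] at hx
        rcases hx with h | h | h
        · exact absurd (h4 x h a (by simp)) c2
        · exact absurd h c1
        · exact h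

theorem dep_insL (z x : ℕ) (t : Tr) : IsBST t → x ∈ keys t → dep x (insL z t) = dep x t := by
  induction t with
  | nil => intro _ h; simp [keys] at h
  | node a l r ih _ =>
    intro hb hx
    unfold IsBST at hb ih
    simp only [keys, List.pairwise_append, List.pairwise_cons] at hb
    obtain ⟨h1, ⟨h2, h3⟩, h4⟩ := hb
    simp only [insL, dep]
    by_cases c1 : x = a
    · simp [c1]
    · by_cases c2 : x < a
      · simp only [if_neg c1, if_pos c2]
        rw [ih h1]
        simp only [keys, List.mem_append, List.mem_cons] at hx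
        rcases hx with h | h | h
        · exact h
        · exact absurd h c1
        · have := h2 x h
          omega
      · simp [c1, c2]

/-- the static tree -/
def stat : ℕ → ℕ → Tr
  | 0, a => node a nil nil
  | m + 1, a => node (a + nk m + 1) (insR (a + nk m) (stat m a))
      (insL (a + nk m + 2) (stat m (a + nk m + 3)))

theorem keys_stat (m : ℕ) : ∀ a, keys (stat m a) = List.range' a (nk m) := by
  induction m with
  | zero => intro a; simp [stat, keys, nk]
  | succ m ih =>
    intro a
    simp only [stat, keys, keys_insL, keys_insR, ih, nk]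
    rw [show 2 * nk m + 3 = nk m + (nk m + 3) by ring, ← List.range'_append_1,
      show nk m + 3 = (nk m + 2) + 1 by ring, List.range'_succ, List.range'_succ, List.range'_succ]
    simp only [List.append_assoc, List.singleton_append]

theorem bst_stat (m a : ℕ) : IsBST (stat m a) := by
  unfold IsBST
  rw [keys_stat]
  exact List.pairwise_lt_range'

theorem lsum_fam (m : ℕ) : ∀ a q, (fam m a).lsum (4 ^ m * q) + 6 * 3 ^ m * q = 6 * 4 ^ m * q := by
  induction m with
  | zero => intro a q; simp [fam, lsum_leaf]
  | succ m ih =>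
    intro a q
    have e1 : (fam (m + 1) a).lsum (4 ^ (m + 1) * q) =
        2 * (2 * (4 ^ m * q)) + (fam m a).lsum (4 ^ m * (2 * q)) +
          (2 * (4 ^ m * q) + 0 + (fam m (a + nk m + 3)).lsum (4 ^ m * q)) := by
      rw [show 4 ^ (m + 1) * q = 2 * (2 * (4 ^ m * q)) by ring]
      simp only [fam]
      rw [lsum_br, lsum_br, lsum_leaf, show 2 * (4 ^ m * q) = 4 ^ m * (2 * q) by ring]
    rw [e1]
    have h1 := ih a (2 * q)
    have h2 := ih (a + nk m + 3) q
    rw [pow_succ 4, pow_succ 3]
    nlinarith [h1, h2]

theorem map_sum_congr {w w' : ℕ → ℕ} {X : List ℕ} (h : ∀ x ∈ X, w x = w' x + 1) :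
    (X.map w).sum = (X.map w').sum + X.length := by
  induction X with
  | nil => simp
  | cons x X ih =>
    have h1 := h x (by simp)
    have h2 := ih fun y hy => h y (by simp [hy])
    simp only [List.map_cons, List.sum_cons, List.length_cons, h1, h2]
    ring

theorem sum_fam (m : ℕ) : ∀ a q,
    (((fam m a).req (4 ^ m * q)).map fun x => 1 + dep x (stat m a)).sum + 3 ^ (m + 1) * q =
      4 ^ (m + 1) * q := by
  induction m with
  | zero =>
    intro a q
    simp only [fam, sum_leaf, stat, dep]
    simp
    ring
  | succ m ih =>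
    intro a q
    have e1 : (((fam (m + 1) a).req (4 ^ (m + 1) * q)).map fun x => 1 + dep x (stat (m + 1) a)).sum =
        (((fam m a).req (4 ^ m * (2 * q))).map fun x => 1 + dep x (stat (m + 1) a)).sum +
        ((4 ^ m * q) * (1 + dep (a + nk m + 1) (stat (m + 1) a)) +
        (((fam m (a + nk m + 3)).req (4 ^ m * q)).map fun x => 1 + dep x (stat (m + 1) a)).sum) := by
      rw [show 4 ^ (m + 1) * q = 2 * (2 * (4 ^ m * q)) by ring]
      simp only [fam]
      rw [sum_br, sum_br, sum_leaf, show 2 * (4 ^ m * q) = 4 ^ m * (2 * q) by ring]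
    have e2 : (((fam m a).req (4 ^ m * (2 * q))).map fun x => 1 + dep x (stat (m + 1) a)).sum =
        (((fam m a).req (4 ^ m * (2 * q))).map fun x => 1 + dep x (stat m a)).sum +
          4 ^ m * (2 * q) := by
      rw [map_sum_congr (w' := fun x => 1 + dep x (stat m a)), length_req]
      intro x hx
      have h1 := mem_req _ _ x hx
      rw [ks_fam] at h1
      have h2 : x < a + nk m := by
        rw [List.mem_range'_1] at h1; exact h1.2
      have h3 : x ∈ keys (stat m a) := by rw [keys_stat]; exact h1
      simp only [stat, dep, if_neg (show ¬ x = a + nk m + 1 by omega),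
        if_pos (show x < a + nk m + 1 by omega), dep_insR _ _ _ (bst_stat m a) h3]
      ring
    have e3 : (((fam m (a + nk m + 3)).req (4 ^ m * q)).map
          fun x => 1 + dep x (stat (m + 1) a)).sum =
        (((fam m (a + nk m + 3)).req (4 ^ m * q)).map
          fun x => 1 + dep x (stat m (a + nk m + 3))).sum + 4 ^ m * q := by
      rw [map_sum_congr (w' := fun x => 1 + dep x (stat m (a + nk m + 3))), length_req]
      intro x hx
      have h1 := mem_req _ _ x hx
      rw [ks_fam] at h1
      have h2 : a + nk m + 3 ≤ x := by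
        rw [List.mem_range'_1] at h1; exact h1.1
      have h3 : x ∈ keys (stat m (a + nk m + 3)) := by rw [keys_stat]; exact h1
      simp only [stat, dep, if_neg (show ¬ x = a + nk m + 1 by omega),
        if_neg (show ¬ x < a + nk m + 1 by omega), dep_insL _ _ _ (bst_stat m _) h3]
      ring
    have e4 : dep (a + nk m + 1) (stat (m + 1) a) = 0 := by simp [stat, dep]
    rw [e1, e2, e3, e4]
    have h1 := ih a (2 * q)
    have h2 := ih (a + nk m + 3) q
    rw [pow_succ 4 (m + 1), pow_succ 3 (m + 1)]
    rw [pow_succ 4 m, pow_succ 3 m] at *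
    nlinarith [h1, h2]

/-! ## Rotations between search trees with the same keys -/

theorem rotN_trans {e e' : ℕ} {T T' T'' : Tr} (h : RotN e T T') (h' : RotN e' T' T'') :
    RotN (e + e') T T'' := by
  induction h with
  | refl T => rwa [Nat.zero_add]
  | step e s T U V h1 _ ih =>
    rw [show e + 1 + e' = (e + e') + 1 by ring]
    exact RotN.step _ s _ _ _ h1 (ih h')

theorem rotN_one {T T' : Tr} {s : ℕ} (h : Rot T T' s) : RotN 1 T T' :=
  RotN.step 0 s _ _ _ h (RotN.refl T')

theorem rot_symm {T T' : Tr} {s : ℕ} (h : Rot T T' s) : ∃ s', Rot T' T s' := by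
  induction h with
  | right a b A B C => exact ⟨_, Rot.left a b A B C⟩
  | left a b A B C => exact ⟨_, Rot.right a b A B C⟩
  | inl a L L' R s _ ih => obtain ⟨s', h'⟩ := ih; exact ⟨_, Rot.inl a _ _ R s' h'⟩
  | inr a L R R' s _ ih => obtain ⟨s', h'⟩ := ih; exact ⟨_, Rot.inr a L _ _ s' h'⟩

theorem rotN_symm {e : ℕ} {T T' : Tr} (h : RotN e T T') : RotN e T' T := by
  induction h with
  | refl T => exact RotN.refl T
  | step e s T U V h1 _ ih =>
    obtain ⟨s', h2⟩ := rot_symm h1
    exact rotN_trans ih (RotN.step 0 s' _ _ _ h2 (RotN.refl T))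

theorem rotN_inl {e : ℕ} {L L' : Tr} (a : ℕ) (R : Tr) (h : RotN e L L') :
    RotN e (node a L R) (node a L' R) := by
  induction h with
  | refl T => exact RotN.refl _
  | step e s T U V h1 _ ih => exact RotN.step _ s _ _ _ (Rot.inl a _ _ R s h1) ih

theorem rotN_inr {e : ℕ} {R R' : Tr} (a : ℕ) (L : Tr) (h : RotN e R R') :
    RotN e (node a L R) (node a L R') := by
  induction h with
  | refl T => exact RotN.refl _
  | step e s T U V h1 _ ih => exact RotN.step _ s _ _ _ (Rot.inr a L _ _ s h1) ih

/-- the right comb -/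
def comb : List ℕ → Tr
  | [] => nil
  | k :: K => node k nil (comb K)

theorem comb_join (a : ℕ) (C : List ℕ) : ∀ K : List ℕ,
    ∃ e, RotN e (node a (comb K) (comb C)) (comb (K ++ a :: C)) := by
  intro K
  induction K with
  | nil => exact ⟨0, RotN.refl _⟩
  | cons k K ih =>
    obtain ⟨e, h⟩ := ih
    exact ⟨1 + e, rotN_trans (rotN_one (Rot.right a k nil (comb K) (comb C))) (rotN_inr k nil h)⟩

theorem to_comb (t : Tr) : ∃ e, RotN e t (comb (keys t)) := by
  induction t with
  | nil => exact ⟨0, RotN.refl _⟩
  | node a l r ihl ihr =>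
    obtain ⟨e1, h1⟩ := ihl
    obtain ⟨e2, h2⟩ := ihr
    obtain ⟨e3, h3⟩ := comb_join a (keys r) (keys l)
    exact ⟨_, rotN_trans (rotN_trans (rotN_inl a r h1) (rotN_inr a _ h2)) h3⟩

theorem connect {T B : Tr} (h : keys T = keys B) : ∃ e, RotN e T B := by
  obtain ⟨e1, h1⟩ := to_comb T
  obtain ⟨e2, h2⟩ := to_comb B
  rw [h] at h1
  exact ⟨_, rotN_trans h1 (rotN_symm h2)⟩

theorem dep_le (x : ℕ) (T : Tr) : dep x T ≤ size T := by
  induction T with
  | nil => simp [dep]
  | node a l r ihl ihr =>
    simp only [dep, size]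
    split_ifs <;> omega

theorem exec_static (B : Tr) (X : List ℕ) : Exec B X (X.map fun x => 1 + dep x B).sum := by
  induction X with
  | nil => exact Exec.nil B
  | cons x X ih =>
    have := Exec.cons B B x X 0 _ (RotN.refl B) ih
    simp only [List.map_cons, List.sum_cons]
    rw [show 1 + dep x B + (X.map fun x => 1 + dep x B).sum =
      1 + 0 + dep x B + (X.map fun x => 1 + dep x B).sum by ring]
    exact this

theorem opt_le_static {T B : Tr} (h : keys T = keys B) :
    ∃ K : ℕ, ∀ X : List ℕ, opt T X ≤ K + (X.map fun x => 1 + dep x B).sum := by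
  obtain ⟨e, he⟩ := connect h
  refine ⟨1 + e + size T, fun X => ?_⟩
  cases X with
  | nil =>
    have : opt T [] ≤ 0 := Nat.sInf_le (Exec.nil T)
    omega
  | cons x X =>
    have h1 := Exec.cons T B x X e _ he (exec_static B X)
    have h2 : opt T (x :: X) ≤ _ := Nat.sInf_le h1
    have h3 := dep_le x T
    simp only [List.map_cons, List.sum_cons]
    omega

/-- the costs for the family -/
theorem family (m : ℕ) : ∃ T B : Tr, IsBST T ∧ IsBST B ∧ keys B = keys T ∧
    (∃ K : ℕ, ∀ X : List ℕ, opt T X ≤ K + (X.map fun x => 1 + dep x B).sum) ∧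
    ∀ q : ℕ, ∃ X : List ℕ, (∀ x ∈ X, x ∈ keys T) ∧
      (X.map fun x => 1 + dep x B).sum + 3 ^ (m + 1) * q = 4 ^ (m + 1) * q ∧
      costSplay T X + 4 * 3 ^ (m + 1) * q = 13 * 4 ^ m * q := by
  have hp : ((fam m 0).ks).Pairwise (· < ·) := by rw [ks_fam]; exact List.pairwise_lt_range'
  have hk : keys (fam m 0).tree = keys (stat m 0) := by rw [keys_tree, ks_fam, keys_stat]
  refine ⟨(fam m 0).tree, stat m 0, ?_, bst_stat m 0, hk.symm, opt_le_static hk,
    fun q => ⟨(fam m 0).req (4 ^ m * q), ?_, sum_fam m 0 q, ?_⟩⟩
  · unfold IsBST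
    rw [keys_tree]
    exact hp
  · intro x hx
    rw [keys_tree]
    exact mem_req _ _ x hx
  · rw [cost_req _ _ hp]
    have h1 := lsum_fam m 0 q
    rw [pow_succ 3]
    nlinarith [h1]

theorem lower (c : ℝ) (hc : c < 13 / 4) : ∃ T B : Tr, IsBST T ∧ IsBST B ∧ keys B = keys T ∧
    ∀ A : ℝ, ∃ X : List ℕ, (∀ x ∈ X, x ∈ keys T) ∧
      c * (opt T X : ℝ) + A < costSplay T X ∧
      c * ((X.map fun x => 1 + dep x B).sum : ℕ) + A < costSplay T X := by
  set d : ℝ := max c 0 with hd
  have hd0 : 0 ≤ d := le_max_right _ _
  have hd1 : d < 13 / 4 := max_lt hc (by norm_num)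
  have hcd : c ≤ d := le_max_left _ _
  obtain ⟨m, hm⟩ := exists_pow_lt_of_lt_one (show (0 : ℝ) < (13 - 4 * d) / 12 by linarith)
    (show (3 / 4 : ℝ) < 1 by norm_num)
  obtain ⟨T, B, hT, hB, hk, ⟨K, hK⟩, hX⟩ := family m
  refine ⟨T, B, hT, hB, hk, fun A => ?_⟩
  have h4 : (0 : ℝ) < 4 ^ m := by positivity
  have h3 : (3 : ℝ) ^ m = (3 / 4) ^ m * 4 ^ m := by rw [← mul_pow]; norm_num
  have hs : (0 : ℝ) < (3 / 4) ^ m := by positivity
  have hgap : 0 < 13 * (4 : ℝ) ^ m - 4 * 3 ^ (m + 1) - d * (4 ^ (m + 1) - 3 ^ (m + 1)) := by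
    have e : 13 * (4 : ℝ) ^ m - 4 * 3 ^ (m + 1) - d * (4 ^ (m + 1) - 3 ^ (m + 1)) =
        4 ^ m * (13 - 4 * d - 12 * (3 / 4) ^ m + 3 * d * (3 / 4) ^ m) := by
      rw [pow_succ, pow_succ, h3]; ring
    rw [e]
    apply mul_pos h4
    have : 0 ≤ 3 * d * (3 / 4 : ℝ) ^ m := by positivity
    linarith
  obtain ⟨q, hq⟩ := exists_nat_gt ((d * K + A) /
    (13 * (4 : ℝ) ^ m - 4 * 3 ^ (m + 1) - d * (4 ^ (m + 1) - 3 ^ (m + 1))))
  rw [div_lt_iff₀ hgap] at hq
  obtain ⟨X, h1, h2, h5⟩ := hX q
  have h2' : ((X.map fun x => 1 + dep x B).sum : ℝ) + 3 ^ (m + 1) * q = 4 ^ (m + 1) * q := by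
    exact_mod_cast h2
  have h5' : (costSplay T X : ℝ) + 4 * 3 ^ (m + 1) * q = 13 * 4 ^ m * q := by exact_mod_cast h5
  have h6 : (opt T X : ℝ) ≤ K + ((X.map fun x => 1 + dep x B).sum : ℕ) := by exact_mod_cast hK X
  have h7 : (0 : ℝ) ≤ opt T X := Nat.cast_nonneg _
  have h8 : (0 : ℝ) ≤ ((X.map fun x => 1 + dep x B).sum : ℕ) := Nat.cast_nonneg _
  have h9 : c * (opt T X : ℝ) ≤ d * opt T X := mul_le_mul_of_nonneg_right hcd h7
  have h10 : c * (((X.map fun x => 1 + dep x B).sum : ℕ) : ℝ) ≤
      d * ((X.map fun x => 1 + dep x B).sum : ℕ) := mul_le_mul_of_nonneg_right hcd h8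
  have h11 : d * (opt T X : ℝ) ≤ d * (K + ((X.map fun x => 1 + dep x B).sum : ℕ)) :=
    mul_le_mul_of_nonneg_left h6 hd0
  have h12 : (0 : ℝ) ≤ d * K := by positivity
  have h13 : d * (((X.map fun x => 1 + dep x B).sum : ℕ) : ℝ) + (d * K + A) < costSplay T X := by
    have e1 : (((X.map fun x => 1 + dep x B).sum : ℕ) : ℝ) = (4 ^ (m + 1) - 3 ^ (m + 1)) * q := by
      linarith
    have e2 : (costSplay T X : ℝ) = (13 * 4 ^ m - 4 * 3 ^ (m + 1)) * q := by linarith
    rw [e1, e2]
    linarith
  exact ⟨X, h1, by linarith, by linarith⟩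

end Pool.Agent.H801.Sp
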